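import Mathlib

/-!
# Numerical semigroups, factorizations and minimal presentations

A numerical semigroup is an additive submonoid of `ℕ` with finite complement. Its minimal
generating set is the set of its atoms, the nonzero elements which are not a sum of two nonzero
elements of the semigroup.
-/

set_option autoImplicit false

namespace Pool.Agent.H140.NS

/-- `S` is a numerical semigroup: its complement in `ℕ` is finite. -/
def IsNumerical (S : AddSubmonoid ℕ) : Prop := ((S : Set ℕ)ᶜ).Finite

/-- The minimal generators of `S`: the nonzero elements of `S` that are not a sum of two nonzero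
elements of `S`. -/
def atoms (S : AddSubmonoid ℕ) : Set ℕ :=
  {n | n ∈ S ∧ n ≠ 0 ∧ ∀ a ∈ S, ∀ b ∈ S, a ≠ 0 → b ≠ 0 → a + b ≠ n}

/-- The embedding dimension: the number of minimal generators. -/
noncomputable def embDim (S : AddSubmonoid ℕ) : ℕ := (atoms S).ncard

/-- The multiplicity: the least nonzero element. -/
noncomputable def mult (S : AddSubmonoid ℕ) : ℕ := sInf {n | n ∈ S ∧ n ≠ 0}

/-- For a family `v` of natural numbers, the additive map `z ↦ ∑ z i * v i`. -/
noncomputable def val {α : Type} (v : α → ℕ) : (α →₀ ℕ) →+ ℕ :=
  (Finsupp.linearCombination ℕ v).toAddMonoidHom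

/-- The factorization map of `S`: a vector `z` of multiplicities, indexed by the minimal
generators of `S`, is sent to the element `∑ z n * n` of `S`. The factorizations of `n` are the
vectors `z` with `value S z = n`. -/
noncomputable def value (S : AddSubmonoid ℕ) : (atoms S →₀ ℕ) →+ ℕ :=
  val (fun n : atoms S => (n : ℕ))

/-- A set of pairs of factorizations is a presentation of `S` when the additive congruence that it
generates is the kernel congruence of the factorization map. -/
def IsPresentation (S : AddSubmonoid ℕ) (ρ : Set ((atoms S →₀ ℕ) × (atoms S →₀ ℕ))) : Prop :=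
  addConGen (fun a b => (a, b) ∈ ρ) = AddCon.ker (value S)

/-- `η(S)`: the number of elements of a minimal presentation of `S` (a presentation that is
minimal with respect to inclusion). -/
noncomputable def eta (S : AddSubmonoid ℕ) : ℕ :=
  sInf {k | ∃ ρ, Minimal (IsPresentation S) ρ ∧ ρ.Finite ∧ ρ.ncard = k}

/-- The Apery set of `S` with respect to its multiplicity `m`: the elements `n` of `S` for which
`n - m` is not in `S`. -/
def apery (S : AddSubmonoid ℕ) : Set ℕ := {n | n ∈ S ∧ ¬ ∃ k ∈ S, k + mult S = n}

end Pool.Agent.H140.NS
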