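import Pool.Agent.H140.NS.Upper

set_option autoImplicit false

namespace Pool.Agent.H140.NS

open Finsupp

variable {α : Type} {v : α → ℕ} {a0 : α} {m : ℕ}

/-- A standard vector is the only factorization of its value. -/
lemma std_unique (hv : v a0 = m) (hm : 0 < m) {x z : α →₀ ℕ} (hx : x ∈ Std v v a0 m)
    (h : val v z = val v x) : z = x := by
  have h1 : val v z = z a0 * m + val v (z.erase a0) := by
    conv_lhs => rw [← Finsupp.single_add_erase a0 z]
    rw [map_add, val_single, hv]
  by_cases hne : z.erase a0 = x
  · rw [hne] at h1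
    have h2 : z a0 * m = 0 := by omega
    have h3 : z a0 = 0 := by
      rcases Nat.mul_eq_zero.1 h2 with h3 | h3
      · exact h3
      · omega
    rw [← hne, ← Finsupp.single_add_erase a0 z, h3]
    simp
  · have hcl : val v (z.erase a0) ≡ val v x [MOD m] := by
      rw [← h, h1]
      simp [Nat.ModEq]
    have := hx.2 (z.erase a0) Finsupp.erase_same hcl hne
    omega

/-- A corner is isolated among the factorizations of its value. -/
lemma corner_isolated (hv : v a0 = m) (hm : 0 < m) {u z : α →₀ ℕ} (hu : u ∈ Cor (Std v v a0 m) a0)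
    (h : val v z = val v u) {i : α} (hi : i ∈ u.support) (hi' : i ∈ z.support) : z = u := by
  have h1 := sub_single_add hi
  have h2 := sub_single_add hi'
  have h3 : val v (z - single i 1) = val v (u - single i 1) := by
    have e1 := congrArg (val v) h1
    have e2 := congrArg (val v) h2
    rw [map_add] at e1 e2
    omega
  have h4 := std_unique hv hm (hu.2.2 i hi) h3
  rw [← h1, ← h2, h4]

/-- Every presentation has at least as many pairs as there are corners. -/
theorem lower (hv : v a0 = m) (hm : 0 < m)
    (h : ∀ z, z a0 = 0 → ∃ x ∈ Std v v a0 m, val v x ≡ val v z [MOD m])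
    (hfin : (Cor (Std v v a0 m) a0).Finite)
    (ρ : Set ((α →₀ ℕ) × (α →₀ ℕ))) (hρ : ρ.Finite)
    (hpres : addConGen (fun a b => (a, b) ∈ ρ) = AddCon.ker (val v)) :
    (Cor (Std v v a0 m) a0).ncard ≤ ρ.ncard := by
  classical
  set C := Cor (Std v v a0 m) a0 with hC
  haveI : Fintype C := hfin.fintype
  -- the vector of a factorization
  let f : (α →₀ ℕ) → (C → ℚ) := fun a c => if a = c.1 then 1 else 0
  let D : (α →₀ ℕ) × (α →₀ ℕ) → (C → ℚ) := fun p => f p.1 - f p.2
  let W : Submodule ℚ (C → ℚ) := Submodule.span ℚ (D '' ρ)
  have hadd : ∀ a b c : α →₀ ℕ, val v a = val v b → f a - f b ∈ W → f (a + c) - f (b + c) ∈ W := by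
    intro a b c hab hmem
    by_cases hc : c = 0
    · rw [hc, add_zero, add_zero]; exact hmem
    · have : f (a + c) = f (b + c) := by
        obtain ⟨i, hi⟩ := Finsupp.support_nonempty_iff.2 hc
        have key : ∀ a b : α →₀ ℕ, val v a = val v b → ∀ d : C, a + c = d.1 → b + c = d.1 := by
          intro a b hab d had
          have hia : i ∈ (a + c).support := by
            rw [Finsupp.mem_support_iff] at hi ⊢
            simp only [Finsupp.add_apply]; omega
          have hib : i ∈ (b + c).support := by
            rw [Finsupp.mem_support_iff] at hi ⊢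
            simp only [Finsupp.add_apply]; omega
          apply corner_isolated hv hm d.2 (i := i)
          · rw [← had, map_add, map_add, hab]
          · rw [← had]; exact hia
          · exact hib
        funext d
        simp only [f]
        by_cases h1 : a + c = d.1
        · rw [if_pos h1, if_pos (key a b hab d h1)]
        · rw [if_neg h1, if_neg (fun h2 => h1 (key b a hab.symm d h2))]
      rw [this, sub_self]
      exact W.zero_mem
  let R : AddCon (α →₀ ℕ) :=
    { r := fun a b => val v a = val v b ∧ f a - f b ∈ W
      iseqv := ⟨fun a => ⟨rfl, by rw [sub_self]; exact W.zero_mem⟩,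
        fun {a b} hab => ⟨hab.1.symm, by
          have := W.neg_mem hab.2
          rwa [neg_sub] at this⟩,
        fun {a b c} hab hbc => ⟨hab.1.trans hbc.1, by
          have := W.add_mem hab.2 hbc.2
          rwa [sub_add_sub_cancel] at this⟩⟩
      add' := fun {a b c d} hab hcd => ⟨by rw [map_add, map_add, hab.1, hcd.1], by
        have h1 := hadd a b c hab.1 hab.2
        have h2 := hadd c d b hcd.1 hcd.2
        rw [add_comm c b, add_comm d b] at h2
        have := W.add_mem h1 h2
        rwa [sub_add_sub_cancel] at this⟩ }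
  have hle : addConGen (fun a b => (a, b) ∈ ρ) ≤ R := by
    rw [AddCon.addConGen_le]
    intro a b hab
    refine ⟨?_, Submodule.subset_span ⟨(a, b), hab, rfl⟩⟩
    have : addConGen (fun a b => (a, b) ∈ ρ) a b := AddConGen.Rel.of _ _ hab
    rw [hpres] at this
    exact this
  have htop : W = ⊤ := by
    rw [eq_top_iff, ← (Pi.basisFun ℚ C).span_eq, Submodule.span_le]
    rintro _ ⟨c, rfl⟩
    rw [Pi.basisFun_apply]
    have hc : c.1 ∈ C := c.2
    obtain ⟨x, hx, hxc⟩ := h c.1 hc.1
    have hne : c.1 ≠ x := fun hcon => hc.2.1 (hcon ▸ hx)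
    have hlt : val v x < val v c.1 := hx.2 c.1 hc.1 hxc.symm hne
    have hdvd : m ∣ val v c.1 - val v x := (Nat.modEq_iff_dvd' hlt.le).1 hxc
    set b : α →₀ ℕ := single a0 ((val v c.1 - val v x) / m) + x with hb
    have hval : val v c.1 = val v b := by
      rw [hb, map_add, val_single, hv, Nat.div_mul_cancel hdvd]
      omega
    have hrel : addConGen (fun a b => (a, b) ∈ ρ) c.1 b := by
      rw [hpres]; exact hval
    have h2 := (hle hrel).2
    have h3 : f b = 0 := by
      funext d
      simp only [f, Pi.zero_apply]
      rw [if_neg]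
      intro hbd
      have hd0 : d.1 a0 = 0 := d.2.1
      have : b a0 = (val v c.1 - val v x) / m := by
        rw [hb]
        simp [hx.1]
      have hpos : 0 < (val v c.1 - val v x) / m :=
        Nat.div_pos (Nat.le_of_dvd (by omega) hdvd) hm
      rw [hbd, hd0] at this
      omega
    rw [h3, sub_zero] at h2
    have h4 : f c.1 = Pi.single c (1 : ℚ) := by
      funext d
      simp only [f, Pi.single_apply]
      by_cases hcd : c = d
      · rw [if_pos (by rw [hcd]), if_pos hcd.symm]
      · rw [if_neg (fun h => hcd (Subtype.ext h)), if_neg (fun h => hcd h.symm)]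
    rw [← h4]
    exact h2
  haveI : Fintype ρ := hρ.fintype
  have h5 : Module.finrank ℚ W ≤ ρ.ncard := by
    have hfin2 : (D '' ρ).Finite := hρ.image _
    haveI : Fintype (D '' ρ : Set (C → ℚ)) := hfin2.fintype
    refine (finrank_span_le_card (D '' ρ)).trans ?_
    rw [← Set.ncard_eq_toFinset_card']
    exact Set.ncard_image_le hρ
  rw [htop, finrank_top, Module.finrank_fintype_fun_eq_card, Fintype.card_eq_nat_card] at h5
  exact h5

end Pool.Agent.H140.NS
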