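import Pool.Agent.H140.NS.Semi

set_option autoImplicit false

namespace Pool.Agent.H140.NS

open Finsupp

/-- A finite presentation contains a minimal one. -/
lemma exists_minimal_of_finite {S : AddSubmonoid ℕ} {ρ : Set ((atoms S →₀ ℕ) × (atoms S →₀ ℕ))}
    (h : IsPresentation S ρ) (hfin : ρ.Finite) :
    ∃ ρ', Minimal (IsPresentation S) ρ' ∧ ρ'.Finite ∧ ρ'.ncard ≤ ρ.ncard := by
  obtain ⟨σ, ⟨hσ1, hσ2⟩, hmin⟩ := WellFounded.has_min
    (measure (Set.ncard : Set ((atoms S →₀ ℕ) × (atoms S →₀ ℕ)) → ℕ)).wf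
    {σ | σ ⊆ ρ ∧ IsPresentation S σ} ⟨ρ, subset_rfl, h⟩
  have hσfin : σ.Finite := hfin.subset hσ1
  refine ⟨σ, ⟨hσ2, fun τ hτ hle => ?_⟩, hσfin, Set.ncard_le_ncard hσ1 hfin⟩
  by_contra hcon
  have hss : τ ⊂ σ := ⟨hle, hcon⟩
  exact hmin τ ⟨hle.trans hσ1, hτ⟩ (Set.ncard_lt_ncard hss hσfin)

/-- Generic weights for a numerical semigroup. -/
structure Weights {S : AddSubmonoid ℕ} (hS : IsNumerical S) (w : atoms S → ℕ) : Prop where
  w0 : w (a0 hS) = mult S
  cong : ∀ i, w i ≡ (i : ℕ) [MOD mult S]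
  big : ∀ i, i ≠ a0 hS → mult S < w i
  ac : ∀ z, z (a0 hS) = 0 → ∃ x ∈ Std (fun n : atoms S => (n : ℕ)) w (a0 hS) (mult S),
    val (fun n : atoms S => (n : ℕ)) x ≡ val (fun n : atoms S => (n : ℕ)) z [MOD mult S] ∧
    val (fun n : atoms S => (n : ℕ)) x ≤ val (fun n : atoms S => (n : ℕ)) z
  at' : ∀ i, i ≠ a0 hS → single i 1 ∈ Std (fun n : atoms S => (n : ℕ)) w (a0 hS) (mult S)

lemma exists_Weights {S : AddSubmonoid ℕ} (hS : IsNumerical S) : ∃ w, Weights hS w := by
  have : Fintype (atoms S) := (atoms_finite hS).fintype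
  obtain ⟨w, h1, h2, h3, h4, h5⟩ := exists_weights (v := fun n : atoms S => (n : ℕ))
    (a0 := a0 hS) (m := mult S) rfl (Nat.pos_of_ne_zero (mult_spec hS).2) atom_pos (cover hS)
  exact ⟨w, h1, h2, h3, h4, fun i hi => h5 i hi (fun z _ hz hne => atom_strict hS i hi z hz hne)⟩

section

variable {S : AddSubmonoid ℕ} {hS : IsNumerical S} {w : atoms S → ℕ}

/-- The corners of the generic weights. -/
def corners (hS : IsNumerical S) (w : atoms S → ℕ) : Set (atoms S →₀ ℕ) :=
  Cor (Std (fun n : atoms S => (n : ℕ)) w (a0 hS) (mult S)) (a0 hS)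

lemma Weights.pos (h : Weights hS w) (i : atoms S) : 0 < w i := by
  by_cases hi : i = a0 hS
  · rw [hi, h.w0]; exact Nat.pos_of_ne_zero (mult_spec hS).2
  · exact lt_of_le_of_lt (Nat.zero_le _) (h.big i hi)

lemma Weights.zero_mem (h : Weights hS w) :
    (0 : atoms S →₀ ℕ) ∈ Std (fun n : atoms S => (n : ℕ)) w (a0 hS) (mult S) := by
  refine ⟨rfl, fun z' _ _ hne => ?_⟩
  rw [map_zero]
  exact val_pos h.pos hne

lemma Weights.corners_card (h : Weights hS w) :
    (corners hS w).Finite ∧ (corners hS w).ncard ≤ mult S * embDim S := by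
  have : Fintype (atoms S) := (atoms_finite hS).fintype
  have hm := Nat.pos_of_ne_zero (mult_spec hS).2
  obtain ⟨h1, h2⟩ := std_card (fun n : atoms S => (n : ℕ)) w (a0 hS) hm
  obtain ⟨h3, h4⟩ := cor_card _ (a0 hS) h.zero_mem h1
  have h5 : embDim S = Fintype.card (atoms S) := by
    unfold embDim
    rw [← Nat.card_coe_set_eq, Nat.card_eq_fintype_card]
  refine ⟨h3, h4.trans ?_⟩
  rw [h5]
  exact Nat.mul_le_mul_right _ h2

lemma Weights.min_pres (h : Weights hS w) :
    ∃ ρ, Minimal (IsPresentation S) ρ ∧ ρ.Finite ∧ ρ.ncard ≤ (corners hS w).ncard := by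
  obtain ⟨g, hg⟩ := upper (v := fun n : atoms S => (n : ℕ)) (w := w) (a0 := a0 hS) (m := mult S)
    rfl (Nat.pos_of_ne_zero (mult_spec hS).2) h.ac
  have hfin := h.corners_card.1
  obtain ⟨ρ, h1, h2, h3⟩ := exists_minimal_of_finite (S := S) (ρ := g '' corners hS w) hg
    (hfin.image g)
  exact ⟨ρ, h1, h2, h3.trans (Set.ncard_image_le hfin)⟩

lemma eta_le_of {S : AddSubmonoid ℕ} {ρ : Set ((atoms S →₀ ℕ) × (atoms S →₀ ℕ))}
    (h : Minimal (IsPresentation S) ρ) (hfin : ρ.Finite) : eta S ≤ ρ.ncard :=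
  Nat.sInf_le ⟨ρ, h, hfin, rfl⟩

lemma Weights.eta_le (h : Weights hS w) : eta S ≤ (corners hS w).ncard := by
  obtain ⟨ρ, h1, h2, h3⟩ := h.min_pres
  exact (eta_le_of h1 h2).trans h3

/-- The number of relations is attained. -/
lemma eta_attained (hS : IsNumerical S) :
    ∃ ρ, Minimal (IsPresentation S) ρ ∧ ρ.Finite ∧ ρ.ncard = eta S := by
  obtain ⟨w, hw⟩ := exists_Weights hS
  obtain ⟨ρ, h1, h2, -⟩ := hw.min_pres
  exact Nat.sInf_mem (s := {k | ∃ ρ, Minimal (IsPresentation S) ρ ∧ ρ.Finite ∧ ρ.ncard = k})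
    ⟨_, ρ, h1, h2, rfl⟩

lemma eta_bound (hS : IsNumerical S) : eta S ≤ mult S * embDim S := by
  obtain ⟨w, hw⟩ := exists_Weights hS
  exact hw.eta_le.trans hw.corners_card.2

lemma Weights.std_eq' (h : Weights hS w) :
    Std (fun n : atoms S => (n : ℕ)) w (a0 hS) (mult S) = Std w w (a0 hS) (mult S) := by
  have : Fintype (atoms S) := (atoms_finite hS).fintype
  exact std_eq h.cong

lemma Weights.hat (h : Weights hS w) (i : atoms S) (hi : i ≠ a0 hS) (z : atoms S →₀ ℕ)
    (hz : val w z = w i) : z = single i 1 := by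
  have h1 := h.at' i hi
  rw [h.std_eq'] at h1
  exact std_unique h.w0 (Nat.pos_of_ne_zero (mult_spec hS).2) h1
    (by rw [hz, val_single, one_mul])

lemma Weights.cov (h : Weights hS w) (r : ℕ) :
    ∃ z, z (a0 hS) = 0 ∧ val w z ≡ r [MOD mult S] := by
  have : Fintype (atoms S) := (atoms_finite hS).fintype
  obtain ⟨z, hz0, hz⟩ := cover hS r
  exact ⟨z, hz0, (val_modEq h.cong z).trans hz⟩

lemma Weights.numerical (h : Weights hS w) : IsNumerical (gen w) := by
  have : Fintype (atoms S) := (atoms_finite hS).fintype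
  exact gen_numerical h.w0 (Nat.pos_of_ne_zero (mult_spec hS).2)
    (fun r => ⟨(h.cov r).choose, (h.cov r).choose_spec.2⟩)

lemma Weights.mult_eq (h : Weights hS w) : mult (gen w) = mult S := by
  have : Fintype (atoms S) := (atoms_finite hS).fintype
  exact gen_mult h.w0 (Nat.pos_of_ne_zero (mult_spec hS).2) h.big

lemma Weights.atoms_eq (h : Weights hS w) : atoms (gen w) = Set.range w := by
  have : Fintype (atoms S) := (atoms_finite hS).fintype
  exact gen_atoms h.w0 (Nat.pos_of_ne_zero (mult_spec hS).2) h.big h.hat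

lemma Weights.inj (h : Weights hS w) : Function.Injective w := gen_injective h.hat

lemma Weights.embDim_eq (h : Weights hS w) : embDim (gen w) = embDim S := by
  unfold embDim
  rw [h.atoms_eq, ← Nat.card_coe_set_eq, ← Nat.card_coe_set_eq]
  exact (Nat.card_congr (Equiv.ofInjective w h.inj)).symm

/-- The generators of the new semigroup are indexed by the old ones. -/
noncomputable def Weights.E (h : Weights hS w) : atoms S ≃ atoms (gen w) :=
  (Equiv.ofInjective w h.inj).trans (Equiv.setCongr h.atoms_eq.symm)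

lemma Weights.E_apply (h : Weights hS w) (i : atoms S) : ((h.E i : atoms (gen w)) : ℕ) = w i := rfl

/-- Reindexing of the factorizations. -/
noncomputable def Weights.D (h : Weights hS w) : (atoms S →₀ ℕ) ≃+ (atoms (gen w) →₀ ℕ) :=
  Finsupp.domCongr h.E

lemma Weights.value_D (h : Weights hS w) (z : atoms S →₀ ℕ) :
    value (gen w) (h.D z) = val w z := by
  unfold value val Weights.D
  simp only [LinearMap.toAddMonoidHom_coe]
  have h1 : Finsupp.domCongr h.E z = Finsupp.equivMapDomain h.E z := rfl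
  rw [h1, Finsupp.linearCombination_equivMapDomain]
  rfl

/-- Every presentation of the new semigroup has at least as many elements as there are corners. -/
lemma Weights.le_pres (h : Weights hS w)
    (ρ : Set ((atoms (gen w) →₀ ℕ) × (atoms (gen w) →₀ ℕ))) (hρ : IsPresentation (gen w) ρ)
    (hfin : ρ.Finite) : (corners hS w).ncard ≤ ρ.ncard := by
  set σ : Set ((atoms S →₀ ℕ) × (atoms S →₀ ℕ)) := {p | (h.D p.1, h.D p.2) ∈ ρ} with hσ
  have hσi : σ = (Prod.map h.D h.D) ⁻¹' ρ := rfl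
  have hinj : Function.Injective (Prod.map h.D h.D) := h.D.injective.prodMap h.D.injective
  have hsurj : Function.Surjective (Prod.map h.D h.D) := h.D.surjective.prodMap h.D.surjective
  have hσfin : σ.Finite := by
    rw [hσi]
    exact hfin.preimage hinj.injOn
  have hcard : σ.ncard = ρ.ncard := by
    rw [hσi]
    exact Set.ncard_preimage_of_injective_subset_range hinj
      (fun x _ => Set.mem_range.2 (hsurj x))
  rw [← hcard]
  have hpres : addConGen (fun a b => (a, b) ∈ σ) = AddCon.ker (val w) := by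
    have h1 := AddCon.comap_addConGen_equiv h.D (fun a b => (a, b) ∈ ρ)
    have h2 : (addConGen fun x y => (h.D x, h.D y) ∈ ρ) = addConGen (fun a b => (a, b) ∈ σ) := rfl
    rw [← h2, ← h1]
    have h3 : addConGen (fun a b => (a, b) ∈ ρ) = AddCon.ker (value (gen w)) := hρ
    rw [h3]
    ext a b
    rw [AddCon.comap_rel, AddCon.ker_rel, AddCon.ker_rel, h.value_D, h.value_D]
  have hfinC := h.corners_card.1
  unfold corners at hfinC ⊢
  rw [h.std_eq'] at hfinC ⊢
  refine lower h.w0 (Nat.pos_of_ne_zero (mult_spec hS).2) ?_ hfinC σ hσfin hpres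
  intro z hz
  obtain ⟨x, hx, hxc, -⟩ := h.ac z hz
  have : Fintype (atoms S) := (atoms_finite hS).fintype
  refine ⟨x, h.std_eq' ▸ hx, ?_⟩
  exact (val_modEq h.cong x).trans (hxc.trans (val_modEq h.cong z).symm)

lemma Weights.eta_ge (h : Weights hS w) : eta S ≤ eta (gen w) := by
  obtain ⟨ρ, h1, h2, h3⟩ := eta_attained h.numerical
  rw [← h3]
  exact h.eta_le.trans (h.le_pres ρ h1.1 h2)

/-- The elements of the Apery set of the new semigroup have one factorization. -/
lemma Weights.apery_unique (h : Weights hS w) (n : ℕ) (hn : n ∈ apery (gen w)) :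
    ∃! z, value (gen w) z = n := by
  have : Fintype (atoms S) := (atoms_finite hS).fintype
  have hm := Nat.pos_of_ne_zero (mult_spec hS).2
  obtain ⟨hn1, hn2⟩ := hn
  rw [h.mult_eq] at hn2
  obtain ⟨z, hz⟩ := (mem_gen w n).1 hn1
  have hz0 : z (a0 hS) = 0 := by
    by_contra hne
    have hi : a0 hS ∈ z.support := Finsupp.mem_support_iff.2 hne
    refine hn2 ⟨val w (z - single (a0 hS) 1), (mem_gen w _).2 ⟨_, rfl⟩, ?_⟩
    rw [← hz, val_split w hi, h.w0]
  obtain ⟨x, hx, hxc, -⟩ := h.ac z hz0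
  rw [h.std_eq'] at hx
  have hxc' : val w x ≡ val w z [MOD mult S] :=
    (val_modEq h.cong x).trans (hxc.trans (val_modEq h.cong z).symm)
  have hzx : z = x := by
    by_contra hne
    have hlt := hx.2 z hz0 hxc'.symm hne
    obtain ⟨k, hk⟩ := (Nat.modEq_iff_dvd' hlt.le).1 hxc'
    have hk0 : k ≠ 0 := by
      rintro rfl
      omega
    obtain ⟨l, rfl⟩ := Nat.exists_eq_succ_of_ne_zero hk0
    refine hn2 ⟨val w x + l * mult S, (mem_gen w _).2 ⟨x + single (a0 hS) l, ?_⟩, ?_⟩
    · rw [map_add, val_single, h.w0]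
    · rw [← hz]
      rw [Nat.mul_succ] at hk
      have : mult S * l = l * mult S := mul_comm _ _
      omega
  refine ⟨h.D z, (h.value_D z).trans hz, ?_⟩
  intro y hy
  have h1 : val w (h.D.symm y) = val w x := by
    rw [← h.value_D, AddEquiv.apply_symm_apply, hy, ← hz, hzx]
  have h2 := std_unique h.w0 hm hx h1
  rw [hzx, ← h2, AddEquiv.apply_symm_apply]

end

theorem step {S : AddSubmonoid ℕ} (hS : IsNumerical S) :
    ∃ S' : AddSubmonoid ℕ, IsNumerical S' ∧ embDim S' = embDim S ∧ mult S' = mult S ∧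
      eta S ≤ eta S' ∧ ∀ n ∈ apery S', ∃! z, value S' z = n := by
  obtain ⟨w, h⟩ := exists_Weights hS
  exact ⟨gen w, h.numerical, h.embDim_eq, h.mult_eq, h.eta_ge, h.apery_unique⟩

/-- There is a numerical semigroup for every admissible pair. -/
theorem exists_semigroup (e m : ℕ) (h : e = 1 ∧ m = 1 ∨ 2 ≤ e ∧ e ≤ m) :
    ∃ S : AddSubmonoid ℕ, IsNumerical S ∧ embDim S = e ∧ mult S = m := by
  have he : 0 < e := by omega
  have hm : 0 < m := by omega
  have hem : e ≤ m := by omega
  have : NeZero e := ⟨he.ne'⟩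
  let w : Fin e → ℕ := fun i => m + i
  have hw0 : w 0 = m := by simp [w]
  have hbig : ∀ i, i ≠ 0 → m < w i := by
    intro i hi
    have : (i : ℕ) ≠ 0 := fun h => hi (Fin.ext h)
    simp only [w]; omega
  have hge : ∀ i, m ≤ w i := fun i => by simp only [w]; omega
  have hat : ∀ i, i ≠ 0 → ∀ z, val w z = w i → z = single i 1 := by
    intro i _ z hz
    have hne : z ≠ 0 := by
      rintro rfl
      rw [map_zero] at hz
      have := hge i
      omega
    obtain ⟨j, hj⟩ := Finsupp.support_nonempty_iff.2 hne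
    have h1 := val_split w hj
    by_cases h2 : z - single j 1 = 0
    · rw [h2, map_zero, zero_add, hz] at h1
      have h3 : i = j := by
        apply Fin.ext
        simp only [w] at h1
        omega
      rw [← sub_single_add hj, h2, zero_add, h3]
    · exfalso
      obtain ⟨k, hk⟩ := Finsupp.support_nonempty_iff.2 h2
      have h3 := (hge k).trans (le_val w hk)
      have h4 := hge j
      have h5 : w i < 2 * m := by
        simp only [w]
        have := i.isLt
        omega
      omega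
  refine ⟨gen w, ?_, ?_, ?_⟩
  · apply gen_numerical hw0 hm
    intro r
    rcases h with ⟨h1, h2⟩ | ⟨h1, -⟩
    · exact ⟨0, by rw [h2]; exact Nat.modEq_one⟩
    · refine ⟨single ⟨1, by omega⟩ r, ?_⟩
      rw [val_single]
      have : r * w ⟨1, by omega⟩ = r + r * m := by
        simp only [w]; ring
      rw [this]
      simp [Nat.ModEq]
  · unfold embDim
    rw [gen_atoms hw0 hm hbig hat, ← Nat.card_coe_set_eq,
      ← Nat.card_congr (Equiv.ofInjective w (gen_injective hat)), Nat.card_eq_fintype_card,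
      Fintype.card_fin]
  · exact gen_mult hw0 hm hbig

theorem main (e m : ℕ) (h : e = 1 ∧ m = 1 ∨ 2 ≤ e ∧ e ≤ m) :
    ∃ S : AddSubmonoid ℕ, IsNumerical S ∧ embDim S = e ∧ mult S = m ∧
      (∀ T : AddSubmonoid ℕ, IsNumerical T → embDim T = e → mult T = m → eta T ≤ eta S) ∧
      ∀ n ∈ apery S, ∃! z, value S z = n := by
  set A : Set ℕ := {k | ∃ S : AddSubmonoid ℕ, IsNumerical S ∧ embDim S = e ∧ mult S = m ∧
    eta S = k} with hA
  have hne : A.Nonempty := by
    obtain ⟨S, h1, h2, h3⟩ := exists_semigroup e m h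
    exact ⟨eta S, S, h1, h2, h3, rfl⟩
  have hbdd : BddAbove A := by
    refine ⟨m * e, ?_⟩
    rintro k ⟨S, h1, h2, h3, rfl⟩
    have := eta_bound h1
    rwa [h2, h3] at this
  obtain ⟨S, h1, h2, h3, h4⟩ := Nat.sSup_mem hne hbdd
  obtain ⟨S', g1, g2, g3, g4, g5⟩ := step h1
  refine ⟨S', g1, g2.trans h2, g3.trans h3, fun T t1 t2 t3 => ?_, g5⟩
  have : eta T ≤ sSup A := le_csSup hbdd ⟨T, t1, t2, t3, rfl⟩
  omega

end Pool.Agent.H140.NS
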