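import Pool.Agent.H140.NS.Lower

set_option autoImplicit false

namespace Pool.Agent.H140.NS

open Finsupp

variable {α : Type}

lemma val_eq_sum [Fintype α] (v : α → ℕ) (z : α →₀ ℕ) : val v z = ∑ i, z i * v i := by
  unfold val
  simp [Finsupp.linearCombination_apply, Finsupp.sum_fintype]

lemma val_split (v : α → ℕ) {z : α →₀ ℕ} {i : α} (hi : i ∈ z.support) :
    val v z = val v (z - single i 1) + v i := by
  conv_lhs => rw [← sub_single_add hi]
  rw [map_add, val_single, one_mul]

lemma le_val (v : α → ℕ) {z : α →₀ ℕ} {i : α} (hi : i ∈ z.support) : v i ≤ val v z := by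
  rw [val_split v hi]; omega

lemma apply_mul_le_val (v : α → ℕ) (z : α →₀ ℕ) (i : α) : z i * v i ≤ val v z := by
  have h : single i (z i) + z.erase i = z := Finsupp.single_add_erase i z
  have h2 : val v z = z i * v i + val v (z.erase i) := by
    conv_lhs => rw [← h]
    rw [map_add, val_single]
  omega

lemma val_pos {v : α → ℕ} (hpos : ∀ i, 0 < v i) {z : α →₀ ℕ} (hz : z ≠ 0) : 0 < val v z := by
  obtain ⟨i, hi⟩ := Finsupp.support_nonempty_iff.2 hz
  exact lt_of_lt_of_le (hpos i) (le_val v hi)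

lemma val_modEq [Fintype α] {v w : α → ℕ} {m : ℕ} (h : ∀ i, w i ≡ v i [MOD m]) (z : α →₀ ℕ) :
    val w z ≡ val v z [MOD m] := by
  rw [val_eq_sum, val_eq_sum]
  have : ∀ s : Finset α, (∑ i ∈ s, z i * w i) ≡ ∑ i ∈ s, z i * v i [MOD m] := by
    classical
    intro s
    induction s using Finset.induction_on with
    | empty => exact Nat.ModEq.refl _
    | insert a s ha ih =>
      rw [Finset.sum_insert ha, Finset.sum_insert ha]
      exact Nat.ModEq.add ((h a).mul_left _) ih
  exact this _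

lemma std_eq [Fintype α] {v w : α → ℕ} {m : ℕ} {a0 : α} (h : ∀ i, w i ≡ v i [MOD m]) :
    Std v w a0 m = Std w w a0 m := by
  ext z
  constructor
  · rintro ⟨h1, h2⟩
    refine ⟨h1, fun z' h3 h4 h5 => h2 z' h3 ?_ h5⟩
    exact (val_modEq h z').symm.trans (h4.trans (val_modEq h z))
  · rintro ⟨h1, h2⟩
    refine ⟨h1, fun z' h3 h4 h5 => h2 z' h3 ?_ h5⟩
    exact (val_modEq h z').trans (h4.trans (val_modEq h z).symm)

/-- The vectors without `a0` of minimal value in their class modulo `m`. -/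
def Smin (v : α → ℕ) (a0 : α) (m : ℕ) (z : α →₀ ℕ) : Prop :=
  z a0 = 0 ∧ ∀ z', z' a0 = 0 → val v z' ≡ val v z [MOD m] → val v z ≤ val v z'

lemma exists_smin (v : α → ℕ) (a0 : α) (m : ℕ) (z : α →₀ ℕ) (hz : z a0 = 0) :
    ∃ x, Smin v a0 m x ∧ val v x ≡ val v z [MOD m] := by
  obtain ⟨x, ⟨hx1, hx2⟩, hmin⟩ := WellFounded.has_min (measure (val v : (α →₀ ℕ) → ℕ)).wf
    {x | x a0 = 0 ∧ val v x ≡ val v z [MOD m]} ⟨z, hz, Nat.ModEq.refl _⟩
  refine ⟨x, ⟨hx1, fun z' h1 h2 => ?_⟩, hx2⟩
  exact not_lt.1 (hmin z' ⟨h1, h2.trans hx2⟩)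

section

variable [Fintype α] {v : α → ℕ} {a0 : α} {m : ℕ}

/-- Generic weights in the same classes modulo `m`. -/
theorem exists_weights (hv : v a0 = m) (hm : 0 < m) (hpos : ∀ i, 0 < v i)
    (hcov : ∀ r : ℕ, ∃ z, z a0 = 0 ∧ val v z ≡ r [MOD m]) :
    ∃ w : α → ℕ, w a0 = m ∧ (∀ i, w i ≡ v i [MOD m]) ∧ (∀ i, i ≠ a0 → m < w i) ∧
      (∀ z, z a0 = 0 → ∃ x ∈ Std v w a0 m, val v x ≡ val v z [MOD m] ∧ val v x ≤ val v z) ∧
      (∀ i, i ≠ a0 → (∀ z, z a0 = 0 → val v z ≡ v i [MOD m] → z ≠ single i 1 → v i < val v z) →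
        single i 1 ∈ Std v w a0 m) := by
  classical
  choose y hy0 hy using hcov
  set L : ℕ := ∑ r ∈ Finset.range m, val v (y r) with hL
  have hbound : ∀ z, Smin v a0 m z → val v z ≤ L := by
    intro z hz
    have h1 : val v z ≤ val v (y (val v z % m)) := by
      apply hz.2 _ (hy0 _)
      exact (hy _).trans (Nat.mod_modEq _ _)
    refine h1.trans ?_
    exact Finset.single_le_sum (f := fun r => val v (y r)) (fun _ _ => Nat.zero_le _)
      (Finset.mem_range.2 (Nat.mod_lt _ hm))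
  set n := Fintype.card α with hn
  let e : α ≃ Fin n := Fintype.equivFin α
  set B : ℕ := L + 1 with hB
  let c : α → ℕ := fun i => B ^ (e i : ℕ)
  -- the cost of the minimal vectors
  have hdig : ∀ z, Smin v a0 m z → ∀ i, z i < B := by
    intro z hz i
    have h1 := apply_mul_le_val v z i
    have h2 := hbound z hz
    have h3 : z i ≤ z i * v i := Nat.le_mul_of_pos_right _ (hpos i)
    omega
  have hcost : ∀ z (hz : Smin v a0 m z), val c z =
      (finFunctionFinEquiv (fun j : Fin n => (⟨z (e.symm j), hdig z hz _⟩ : Fin B)) : ℕ) := by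
    intro z hz
    rw [finFunctionFinEquiv_apply, val_eq_sum, ← Equiv.sum_comp e]
    apply Finset.sum_congr rfl
    intro i _
    simp [c]
  have hcostlt : ∀ z, Smin v a0 m z → val c z < B ^ n := by
    intro z hz
    rw [hcost z hz]
    exact (finFunctionFinEquiv _).isLt
  have hcostinj : ∀ z z', Smin v a0 m z → Smin v a0 m z' → val c z = val c z' → z = z' := by
    intro z z' hz hz' h
    rw [hcost z hz, hcost z' hz'] at h
    have h1 := finFunctionFinEquiv.injective (Fin.ext h)
    ext i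
    have h2 := congrFun h1 (e i)
    simpa using h2
  set N : ℕ := 1 + m * B ^ n with hN
  let w : α → ℕ := fun i => if i = a0 then m else N * v i + m * c i
  have hw0 : w a0 = m := by simp [w]
  have hwv : ∀ z : α →₀ ℕ, z a0 = 0 → val w z = N * val v z + m * val c z := by
    intro z hz
    rw [val_eq_sum, val_eq_sum, val_eq_sum, Finset.mul_sum, Finset.mul_sum,
      ← Finset.sum_add_distrib]
    apply Finset.sum_congr rfl
    intro i _
    by_cases hi : i = a0
    · rw [hi, hz]; simp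
    · simp only [w, if_neg hi]; ring
  have hBn : 1 ≤ B ^ n := Nat.one_le_pow _ _ (by omega)
  have hNbig : B ^ n < N := by
    have : B ^ n ≤ m * B ^ n := Nat.le_mul_of_pos_left _ hm
    omega
  -- minimal vectors beat the others
  have hkey : ∀ z z', Smin v a0 m z → z' a0 = 0 → val v z' ≡ val v z [MOD m] →
      ¬ Smin v a0 m z' → val w z < val w z' := by
    intro z z' hz hz'0 hcl hns
    have h1 : val v z ≤ val v z' := hz.2 z' hz'0 hcl
    have h2 : val v z ≠ val v z' := by
      intro h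
      apply hns
      refine ⟨hz'0, fun x hx hxc => ?_⟩
      rw [← h]
      exact hz.2 x hx (by rwa [← h] at hxc)
    have h3 : m ∣ val v z' - val v z := (Nat.modEq_iff_dvd' h1).1 hcl.symm
    have h4 : m ≤ val v z' - val v z := Nat.le_of_dvd (by omega) h3
    rw [hwv z hz.1, hwv z' hz'0]
    have h5 : N * (val v z + m) ≤ N * val v z' := Nat.mul_le_mul_left _ (by omega)
    have h6 : m * val c z < m * N := Nat.mul_lt_mul_of_pos_left ((hcostlt z hz).trans hNbig) hm
    have h7 : N * (val v z + m) = N * val v z + m * N := by ring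
    have h8 : 0 ≤ m * val c z' := Nat.zero_le _
    omega
  have hkey2 : ∀ z z', Smin v a0 m z → Smin v a0 m z' → val v z' ≡ val v z [MOD m] → z' ≠ z →
      val w z ≠ val w z' := by
    intro z z' hz hz' hcl hne h
    have h1 : val v z = val v z' := le_antisymm (hz.2 z' hz'.1 hcl) (hz'.2 z hz.1 hcl.symm)
    rw [hwv z hz.1, hwv z' hz'.1, h1] at h
    have h2 : m * val c z = m * val c z' := by omega
    exact hne (hcostinj z z' hz hz' (Nat.eq_of_mul_eq_mul_left hm h2)).symm
  refine ⟨w, hw0, ?_, ?_, ?_, ?_⟩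
  · intro i
    by_cases hi : i = a0
    · rw [hi, hw0, hv]
    · simp only [w, if_neg hi]
      have : N * v i + m * c i = v i + m * (B ^ n * v i + c i) := by rw [hN]; ring
      rw [this]
      simp [Nat.ModEq]
  · intro i hi
    simp only [w, if_neg hi]
    have h1 : N ≤ N * v i := Nat.le_mul_of_pos_right _ (hpos i)
    have h2 : m ≤ m * B ^ n := Nat.le_mul_of_pos_right _ (by omega)
    omega
  · intro z hz
    obtain ⟨x, ⟨hx1, hx2⟩, hmin⟩ := WellFounded.has_min (measure (val w : (α →₀ ℕ) → ℕ)).wf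
      {x | x a0 = 0 ∧ val v x ≡ val v z [MOD m]} ⟨z, hz, Nat.ModEq.refl _⟩
    have hxs : Smin v a0 m x := by
      by_contra hcon
      obtain ⟨x1, h1, h2⟩ := exists_smin v a0 m z hz
      exact hmin x1 ⟨h1.1, h2⟩ (hkey x1 x h1 hx1 (hx2.trans h2.symm) hcon)
    refine ⟨x, ⟨hx1, fun z' h1 h2 h3 => ?_⟩, hx2, hxs.2 z hz hx2.symm⟩
    by_cases h4 : Smin v a0 m z'
    · have h5 := hkey2 x z' hxs h4 h2 h3
      have h6 : ¬ val w z' < val w x := hmin z' ⟨h1, h2.trans hx2⟩
      omega
    · exact hkey x z' hxs h1 h2 h4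
  · intro i hi hat
    have hsi : val v (single i 1) = v i := by rw [val_single, one_mul]
    have h0 : (single i 1 : α →₀ ℕ) a0 = 0 := Finsupp.single_eq_of_ne (fun h => hi h.symm)
    have hs : Smin v a0 m (single i 1) := by
      refine ⟨h0, fun z' h1 h2 => ?_⟩
      rw [hsi] at h2 ⊢
      by_cases h3 : z' = single i 1
      · rw [h3, hsi]
      · exact (hat z' h1 h2 h3).le
    refine ⟨h0, fun z' h1 h2 h3 => ?_⟩
    apply hkey _ z' hs h1 h2
    intro h4
    have h5 := hat z' h1 (by rwa [hsi] at h2) h3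
    have h6 := h4.2 _ h0 h2.symm
    rw [hsi] at h6
    omega

/-- There are at most `m` standard vectors. -/
lemma std_card (v w : α → ℕ) (a0 : α) {m : ℕ} (hm : 0 < m) :
    (Std v w a0 m).Finite ∧ (Std v w a0 m).ncard ≤ m := by
  have hinj : Set.InjOn (fun z => val v z % m) (Std v w a0 m) := by
    intro x hx x' hx' h
    by_contra hne
    have hcong : val v x ≡ val v x' [MOD m] := h
    have h1 := hx.2 x' hx'.1 hcong.symm (Ne.symm hne)
    have h2 := hx'.2 x hx.1 hcong hne
    omega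
  have hsub : (fun z => val v z % m) '' Std v w a0 m ⊆ Set.Iio m := by
    rintro _ ⟨z, -, rfl⟩
    exact Nat.mod_lt _ hm
  have hfin : ((fun z => val v z % m) '' Std v w a0 m).Finite := (Set.finite_Iio m).subset hsub
  refine ⟨Set.Finite.of_finite_image hfin hinj, ?_⟩
  rw [← Set.InjOn.ncard_image hinj]
  refine (Set.ncard_le_ncard hsub (Set.finite_Iio m)).trans ?_
  rw [← Finset.coe_range, Set.ncard_coe_finset, Finset.card_range]

/-- There are at most `m * card α` corners. -/
lemma cor_card (M : Set (α →₀ ℕ)) (a0 : α) (h0 : (0 : α →₀ ℕ) ∈ M) (hM : M.Finite) :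
    (Cor M a0).Finite ∧ (Cor M a0).ncard ≤ M.ncard * Fintype.card α := by
  have hsub : Cor M a0 ⊆ (fun p : (α →₀ ℕ) × α => p.1 + single p.2 1) '' (M ×ˢ Set.univ) := by
    intro u hu
    have hne : u ≠ 0 := fun h => hu.2.1 (h ▸ h0)
    obtain ⟨i, hi⟩ := Finsupp.support_nonempty_iff.2 hne
    exact ⟨(u - single i 1, i), ⟨hu.2.2 i hi, Set.mem_univ _⟩, sub_single_add hi⟩
  have hfin : (M ×ˢ (Set.univ : Set α)).Finite := hM.prod Set.finite_univ
  refine ⟨(hfin.image _).subset hsub, ?_⟩
  refine (Set.ncard_le_ncard hsub (hfin.image _)).trans ?_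
  refine (Set.ncard_image_le hfin).trans ?_
  rw [Set.ncard_prod, Set.ncard_univ, Nat.card_eq_fintype_card]

end

end Pool.Agent.H140.NS
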