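import Pool.Agent.H140.NS.Pert

set_option autoImplicit false

namespace Pool.Agent.H140.NS

open Finsupp

/-! ### Facts about a numerical semigroup -/

lemma exists_conductor {S : AddSubmonoid ℕ} (hS : IsNumerical S) : ∃ c, ∀ x, c ≤ x → x ∈ S := by
  obtain ⟨b, hb⟩ := hS.bddAbove
  refine ⟨b + 1, fun x hx => ?_⟩
  by_contra hcon
  have := hb (show x ∈ (S : Set ℕ)ᶜ from hcon)
  omega

lemma atoms_finite {S : AddSubmonoid ℕ} (hS : IsNumerical S) : (atoms S).Finite := by
  obtain ⟨c, hc⟩ := exists_conductor hS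
  apply (Set.finite_Iio (2 * c + 2)).subset
  intro n hn
  by_contra hcon
  rw [Set.mem_Iio, not_lt] at hcon
  exact hn.2.2 (c + 1) (hc _ (by omega)) (n - (c + 1)) (hc _ (by omega)) (by omega) (by omega)
    (by omega)

lemma atom_pos {S : AddSubmonoid ℕ} (i : atoms S) : 0 < (i : ℕ) := Nat.pos_of_ne_zero i.2.2.1

lemma value_mem (S : AddSubmonoid ℕ) (z : atoms S →₀ ℕ) : value S z ∈ S := by
  unfold value val
  simp only [LinearMap.toAddMonoidHom_coe, Finsupp.linearCombination_apply, Finsupp.sum]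
  apply AddSubmonoid.sum_mem
  intro i _
  exact S.nsmul_mem i.2.1 _

lemma exists_fact (S : AddSubmonoid ℕ) : ∀ n, n ∈ S → ∃ z, value S z = n := by
  intro n
  induction n using Nat.strong_induction_on with
  | _ n ih =>
    intro hn
    by_cases h0 : n = 0
    · exact ⟨0, by rw [h0, map_zero]⟩
    by_cases hat : n ∈ atoms S
    · exact ⟨single ⟨n, hat⟩ 1, by rw [value, val_single, one_mul]⟩
    · have : ∃ a ∈ S, ∃ b ∈ S, a ≠ 0 ∧ b ≠ 0 ∧ a + b = n := by
        by_contra hcon
        push Not at hcon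
        exact hat ⟨hn, h0, fun a ha b hb h1 h2 => hcon a ha b hb h1 h2⟩
      obtain ⟨a, ha, b, hb, h1, h2, h3⟩ := this
      obtain ⟨za, hza⟩ := ih a (by omega) ha
      obtain ⟨zb, hzb⟩ := ih b (by omega) hb
      exact ⟨za + zb, by rw [map_add, hza, hzb, h3]⟩

lemma mult_spec {S : AddSubmonoid ℕ} (hS : IsNumerical S) : mult S ∈ S ∧ mult S ≠ 0 := by
  obtain ⟨c, hc⟩ := exists_conductor hS
  exact Nat.sInf_mem (s := {n | n ∈ S ∧ n ≠ 0}) ⟨c + 1, hc _ (by omega), by omega⟩

lemma mult_le {S : AddSubmonoid ℕ} {n : ℕ} (hn : n ∈ S) (h0 : n ≠ 0) : mult S ≤ n :=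
  Nat.sInf_le ⟨hn, h0⟩

lemma mult_mem_atoms {S : AddSubmonoid ℕ} (hS : IsNumerical S) : mult S ∈ atoms S := by
  refine ⟨(mult_spec hS).1, (mult_spec hS).2, fun a ha b _ h1 h2 h => ?_⟩
  have := mult_le ha h1
  omega

/-- The multiplicity as an index. -/
noncomputable def a0 {S : AddSubmonoid ℕ} (hS : IsNumerical S) : atoms S :=
  ⟨mult S, mult_mem_atoms hS⟩

lemma value_eq_zero {S : AddSubmonoid ℕ} {z : atoms S →₀ ℕ} (h : value S z = 0) : z = 0 := by
  by_contra hne
  have := val_pos (v := fun n : atoms S => (n : ℕ)) atom_pos hne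
  rw [value] at h
  omega

/-- an atom has only one factorization -/
lemma fact_atom {S : AddSubmonoid ℕ} (i : atoms S) {z : atoms S →₀ ℕ} (h : value S z = i) :
    z = single i 1 := by
  have hne : z ≠ 0 := by
    rintro rfl
    rw [map_zero] at h
    exact i.2.2.1 h.symm
  obtain ⟨j, hj⟩ := Finsupp.support_nonempty_iff.2 hne
  have h1 : value S z = value S (z - single j 1) + j := val_split _ hj
  by_cases h2 : value S (z - single j 1) = 0
  · have h3 := value_eq_zero h2
    have h4 : z = single j 1 := by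
      rw [← sub_single_add hj, h3, zero_add]
    have h5 : (j : ℕ) = i := by
      rw [← h, h1, h2, zero_add]
    rw [h4, Subtype.ext h5]
  · exact absurd (h1.symm.trans h) (i.2.2.2 _ (value_mem S _) _ j.2.1 h2 j.2.2.1)

/-- every class modulo the multiplicity is represented by a vector without the multiplicity -/
lemma cover {S : AddSubmonoid ℕ} (hS : IsNumerical S) (r : ℕ) :
    ∃ z : atoms S →₀ ℕ, z (a0 hS) = 0 ∧
      val (fun n : atoms S => (n : ℕ)) z ≡ r [MOD mult S] := by
  obtain ⟨c, hc⟩ := exists_conductor hS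
  have hm : 0 < mult S := Nat.pos_of_ne_zero (mult_spec hS).2
  obtain ⟨z, hz⟩ := exists_fact S (r + c * mult S) (hc _ (by
    have : c ≤ c * mult S := Nat.le_mul_of_pos_right _ hm
    omega))
  refine ⟨z.erase (a0 hS), Finsupp.erase_same, ?_⟩
  have h1 : value S z = z (a0 hS) * mult S + value S (z.erase (a0 hS)) := by
    conv_lhs => rw [← Finsupp.single_add_erase (a0 hS) z]
    rw [map_add, value, val_single]
    rfl
  rw [hz] at h1
  have h2 : z (a0 hS) * mult S + value S (z.erase (a0 hS)) ≡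
      value S (z.erase (a0 hS)) [MOD mult S] := by simp [Nat.ModEq]
  have h3 : r + c * mult S ≡ r [MOD mult S] := by simp [Nat.ModEq]
  exact (h2.symm.trans (by rw [← h1])).trans h3

/-- the atoms different from the multiplicity are strictly minimal in their classes -/
lemma atom_strict {S : AddSubmonoid ℕ} (hS : IsNumerical S) (i : atoms S) (hi : i ≠ a0 hS)
    (z : atoms S →₀ ℕ) (hz : val (fun n : atoms S => (n : ℕ)) z ≡ (i : ℕ) [MOD mult S])
    (hne : z ≠ single i 1) : (i : ℕ) < val (fun n : atoms S => (n : ℕ)) z := by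
  by_contra hcon
  rw [not_lt] at hcon
  have hm : 0 < mult S := Nat.pos_of_ne_zero (mult_spec hS).2
  rcases Nat.eq_or_lt_of_le hcon with h | h
  · exact hne (fact_atom i h)
  · obtain ⟨k, hk⟩ := (Nat.modEq_iff_dvd' hcon).1 hz
    have hk0 : k ≠ 0 := by
      rintro rfl
      omega
    have hzS : val (fun n : atoms S => (n : ℕ)) z ∈ S := value_mem S z
    have hkm : mult S * k ∈ S := by
      rw [mul_comm]
      exact S.nsmul_mem (mult_spec hS).1 k
    have hkpos : 0 < mult S * k := Nat.mul_pos hm (Nat.pos_of_ne_zero hk0)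
    by_cases h0 : val (fun n : atoms S => (n : ℕ)) z = 0
    · -- then `i` is a multiple of the multiplicity
      have hik : (i : ℕ) = mult S * k := by omega
      obtain ⟨l, rfl⟩ := Nat.exists_eq_succ_of_ne_zero hk0
      rcases Nat.eq_zero_or_pos l with hl | hl
      · apply hi
        apply Subtype.ext
        rw [hik, hl]
        simp [a0]
      · refine i.2.2.2 (mult S) (mult_spec hS).1 (mult S * l) ?_ hm.ne' ?_ ?_
        · rw [mul_comm]
          exact S.nsmul_mem (mult_spec hS).1 l
        · exact (Nat.mul_pos hm hl).ne'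
        · rw [hik, Nat.mul_succ]; ring
    · exact i.2.2.2 _ hzS _ hkm h0 hkpos.ne' (by omega)

/-! ### The semigroup generated by a family -/

section Gen

variable {α : Type} [Fintype α]

/-- The semigroup generated by a family. -/
def gen (w : α → ℕ) : AddSubmonoid ℕ := AddSubmonoid.closure (Set.range w)

omit [Fintype α] in
lemma mem_gen (w : α → ℕ) (x : ℕ) : x ∈ gen w ↔ ∃ z, val w z = x := by
  unfold gen
  rw [← Submodule.span_nat_eq_addSubmonoidClosure]
  have := Finsupp.mem_span_range_iff_exists_finsupp (R := ℕ) (v := w) (x := x)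
  exact this

variable {w : α → ℕ} {b0 : α} {m : ℕ}

omit [Fintype α] in
lemma gen_ge (hw : w b0 = m) (hbig : ∀ i, i ≠ b0 → m < w i) {z : α →₀ ℕ} (hz : z ≠ 0) :
    m ≤ val w z := by
  obtain ⟨i, hi⟩ := Finsupp.support_nonempty_iff.2 hz
  refine le_trans ?_ (le_val w hi)
  by_cases h : i = b0
  · rw [h, hw]
  · exact (hbig i h).le

lemma gen_numerical (hw : w b0 = m) (hm : 0 < m) (hcov : ∀ r : ℕ, ∃ z, val w z ≡ r [MOD m]) :
    IsNumerical (gen w) := by
  choose y hy using hcov
  set K := ∑ r ∈ Finset.range m, val w (y r) with hK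
  apply (Set.finite_Iio K).subset
  intro x hx
  by_contra hcon
  rw [Set.mem_Iio, not_lt] at hcon
  apply hx
  rw [SetLike.mem_coe, mem_gen]
  have h1 : val w (y (x % m)) ≤ K := Finset.single_le_sum (f := fun r => val w (y r))
    (fun _ _ => Nat.zero_le _) (Finset.mem_range.2 (Nat.mod_lt _ hm))
  have h2 : val w (y (x % m)) ≡ x [MOD m] := (hy _).trans (Nat.mod_modEq _ _)
  obtain ⟨k, hk⟩ := (Nat.modEq_iff_dvd' (h1.trans hcon)).1 h2
  refine ⟨y (x % m) + single b0 k, ?_⟩
  rw [map_add, val_single, hw, mul_comm k m]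
  omega

lemma gen_mult (hw : w b0 = m) (hm : 0 < m) (hbig : ∀ i, i ≠ b0 → m < w i) :
    mult (gen w) = m := by
  apply le_antisymm
  · apply mult_le
    · rw [mem_gen]; exact ⟨single b0 1, by rw [val_single, hw, one_mul]⟩
    · omega
  · apply le_csInf
    · exact ⟨m, (mem_gen w m).2 ⟨single b0 1, by rw [val_single, hw, one_mul]⟩, hm.ne'⟩
    · rintro x ⟨hx, hx0⟩
      obtain ⟨z, rfl⟩ := (mem_gen w x).1 hx
      apply gen_ge hw hbig
      rintro rfl
      exact hx0 (map_zero _)

/-- The generators are the atoms. -/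
lemma gen_atoms (hw : w b0 = m) (hm : 0 < m) (hbig : ∀ i, i ≠ b0 → m < w i)
    (hat : ∀ i, i ≠ b0 → ∀ z, val w z = w i → z = single i 1) :
    atoms (gen w) = Set.range w := by
  have hpos : ∀ i, 0 < w i := by
    intro i
    by_cases h : i = b0
    · rw [h, hw]; exact hm
    · exact hm.trans (hbig i h)
  ext x
  constructor
  · rintro ⟨h1, h2, h3⟩
    obtain ⟨z, rfl⟩ := (mem_gen w x).1 h1
    have hne : z ≠ 0 := by
      rintro rfl
      exact h2 (map_zero _)
    obtain ⟨i, hi⟩ := Finsupp.support_nonempty_iff.2 hne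
    have h4 := val_split w hi
    by_cases h5 : val w (z - single i 1) = 0
    · exact ⟨i, by rw [h4, h5, zero_add]⟩
    · exfalso
      refine h3 _ ((mem_gen w _).2 ⟨_, rfl⟩) (w i) ((mem_gen w _).2 ⟨single i 1, ?_⟩) h5
        (hpos i).ne' h4.symm
      rw [val_single, one_mul]
  · rintro ⟨i, rfl⟩
    refine ⟨(mem_gen w _).2 ⟨single i 1, by rw [val_single, one_mul]⟩, (hpos i).ne', ?_⟩
    intro a ha b hb ha0 hb0 hab
    obtain ⟨za, rfl⟩ := (mem_gen w a).1 ha
    obtain ⟨zb, rfl⟩ := (mem_gen w b).1 hb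
    have hza : za ≠ 0 := by
      rintro rfl
      exact ha0 (map_zero _)
    have hzb : zb ≠ 0 := by
      rintro rfl
      exact hb0 (map_zero _)
    by_cases hi : i = b0
    · have h1 := gen_ge hw hbig hza
      have h2 := gen_ge hw hbig hzb
      rw [hi, hw] at hab
      omega
    · have h1 := hat i hi (za + zb) (by rw [map_add, hab])
      have h2 := congrArg Finsupp.degree h1
      rw [map_add, Finsupp.degree_single] at h2
      have h3 : Finsupp.degree za ≠ 0 := fun h => hza ((Finsupp.degree_eq_zero_iff _).1 h)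
      have h4 : Finsupp.degree zb ≠ 0 := fun h => hzb ((Finsupp.degree_eq_zero_iff _).1 h)
      omega

omit [Fintype α] in
lemma gen_injective
    (hat : ∀ i, i ≠ b0 → ∀ z, val w z = w i → z = single i 1) :
    Function.Injective w := by
  classical
  have key : ∀ i j, i ≠ b0 → w i = w j → i = j := by
    intro i j hi hij
    have h1 := hat i hi (single j 1) (by rw [val_single, one_mul, hij])
    have h2 := DFunLike.congr_fun h1 j
    rw [Finsupp.single_eq_same] at h2
    by_contra hne
    rw [Finsupp.single_eq_of_ne (fun h => hne h.symm)] at h2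
    exact absurd h2 one_ne_zero
  intro i j hij
  by_cases hi : i = b0
  · by_cases hj : j = b0
    · rw [hi, hj]
    · exact (key j i hj hij.symm).symm
  · exact key i j hi hij

end Gen

end Pool.Agent.H140.NS
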