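import Pool.Agent.H140.NS.Defs

set_option autoImplicit false

namespace Pool.Agent.H140.NS

open Finsupp

variable {α : Type}

lemma val_single (v : α → ℕ) (i : α) (k : ℕ) : val v (single i k) = k * v i := by
  simp [val]

/-- The vectors without `a0` that have strictly smaller weight than all other vectors without `a0`
in the same class modulo `m`. -/
def Std (v w : α → ℕ) (a0 : α) (m : ℕ) : Set (α →₀ ℕ) :=
  {z | z a0 = 0 ∧ ∀ z', z' a0 = 0 → val v z' ≡ val v z [MOD m] → z' ≠ z → val w z < val w z'}

/-- The minimal vectors outside of `M`. -/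
def Cor (M : Set (α →₀ ℕ)) (a0 : α) : Set (α →₀ ℕ) :=
  {u | u a0 = 0 ∧ u ∉ M ∧ ∀ i ∈ u.support, u - single i 1 ∈ M}

lemma sub_single_add {u : α →₀ ℕ} {i : α} (hi : i ∈ u.support) : (u - single i 1) + single i 1 = u := by
  apply tsub_add_cancel_of_le
  rw [single_le_iff]
  have := Finsupp.mem_support_iff.1 hi
  omega

lemma degree_sub {u : α →₀ ℕ} {i : α} (hi : i ∈ u.support) :
    Finsupp.degree (u - single i 1) < Finsupp.degree u := by
  have h := congrArg Finsupp.degree (sub_single_add hi)
  rw [map_add, Finsupp.degree_single] at h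
  omega

/-- below a vector outside of `M` there is a corner -/
lemma exists_corner {M : Set (α →₀ ℕ)} {a0 : α} {z : α →₀ ℕ} (hz : z a0 = 0) (hM : z ∉ M) :
    ∃ u ∈ Cor M a0, u ≤ z := by
  obtain ⟨u, ⟨hu1, hu2⟩, hmin⟩ := WellFounded.has_min
    (measure (Finsupp.degree : (α →₀ ℕ) → ℕ)).wf {u | u ≤ z ∧ u ∉ M} ⟨z, le_rfl, hM⟩
  refine ⟨u, ⟨?_, hu2, ?_⟩, hu1⟩
  · have := hu1 a0
    omega
  · intro i hi
    by_contra hcon
    refine hmin (u - single i 1) ⟨le_trans tsub_le_self hu1, hcon⟩ ?_
    exact degree_sub hi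

section Upper

variable {v w : α → ℕ} {a0 : α} {m : ℕ}

/-- The rewriting rule at a corner. -/
noncomputable def rule (v : α → ℕ) (a0 : α) (m : ℕ) (y : (α →₀ ℕ) → (α →₀ ℕ)) (u : α →₀ ℕ) :
    (α →₀ ℕ) × (α →₀ ℕ) :=
  (u, single a0 ((val v u - val v (y u)) / m) + y u)

lemma rule_val (hv : v a0 = m) (y : (α →₀ ℕ) → (α →₀ ℕ)) (u : α →₀ ℕ)
    (h1 : val v (y u) ≡ val v u [MOD m]) (h2 : val v (y u) ≤ val v u) :
    val v (rule v a0 m y u).1 = val v (rule v a0 m y u).2 := by
  simp only [rule, map_add, val_single, hv]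
  have h3 : m ∣ val v u - val v (y u) := (Nat.modEq_iff_dvd' h2).1 h1
  rw [Nat.div_mul_cancel h3]
  omega

lemma nf (hv : v a0 = m) (y : (α →₀ ℕ) → (α →₀ ℕ))
    (hy : ∀ z, z a0 = 0 → y z ∈ Std v w a0 m ∧ val v (y z) ≡ val v z [MOD m] ∧
      val v (y z) ≤ val v z) :
    ∀ n z, val w (z.erase a0) = n → ∃ s, ∃ x ∈ Std v w a0 m,
      addConGen (fun a b => (a, b) ∈ rule v a0 m y '' Cor (Std v w a0 m) a0) z
        (single a0 s + x) := by
  intro n
  induction n using Nat.strong_induction_on with
  | _ n ih =>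
    intro z hz
    by_cases h : z.erase a0 ∈ Std v w a0 m
    · refine ⟨z a0, z.erase a0, h, ?_⟩
      rw [Finsupp.single_add_erase]
      exact (addConGen _).refl z
    · have hz0 : (z.erase a0) a0 = 0 := Finsupp.erase_same
      obtain ⟨u, hu, huz⟩ := exists_corner hz0 h
      have hu0 : u a0 = 0 := hu.1
      obtain ⟨hy1, hy2, hy3⟩ := hy u hu0
      have hle : u ≤ z := by
        intro i
        by_cases hi : i = a0
        · rw [hi, hu0]; exact Nat.zero_le _
        · have := huz i
          rwa [Finsupp.erase_ne hi] at this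
      have hne : y u ≠ u := fun hcon => hu.2.1 (hcon ▸ hy1)
      have hlt : val w (y u) < val w u := by
        exact hy1.2 u hu0 hy2.symm hne.symm
      set z' : α →₀ ℕ := (rule v a0 m y u).2 + (z - u) with hz'
      have hrel : addConGen (fun a b => (a, b) ∈ rule v a0 m y '' Cor (Std v w a0 m) a0) z z' := by
        have h1 : z = (rule v a0 m y u).1 + (z - u) := by
          simp only [rule]
          exact (add_tsub_cancel_of_le hle).symm
        have h2 : addConGen (fun a b => (a, b) ∈ rule v a0 m y '' Cor (Std v w a0 m) a0)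
            (rule v a0 m y u).1 (rule v a0 m y u).2 :=
          AddConGen.Rel.of _ _ ⟨u, hu, rfl⟩
        have h3 := (addConGen (fun a b => (a, b) ∈ rule v a0 m y '' Cor (Std v w a0 m) a0)).add h2
          ((addConGen _).refl (z - u))
        rw [← h1] at h3
        exact h3
      have herase : z'.erase a0 = y u + (z.erase a0 - u) := by
        ext i
        by_cases hi : i = a0
        · subst hi
          simp [hy1.1, hu0]
        · rw [Finsupp.erase_ne hi]
          simp [hz', rule, Finsupp.erase_ne hi, Ne.symm hi]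
      have hwt : val w (z'.erase a0) < n := by
        have h1 : z.erase a0 = u + (z.erase a0 - u) := (add_tsub_cancel_of_le huz).symm
        have h2 : val w (z.erase a0) = val w u + val w (z.erase a0 - u) := by
          conv_lhs => rw [h1]
          rw [map_add]
        rw [herase, map_add]
        omega
      obtain ⟨s, x, hx, hsx⟩ := ih _ hwt z' rfl
      exact ⟨s, x, hx, (addConGen _).trans hrel hsx⟩

/-- The corners give a presentation. -/
theorem upper (hv : v a0 = m) (hm : 0 < m)
    (h : ∀ z, z a0 = 0 → ∃ x ∈ Std v w a0 m, val v x ≡ val v z [MOD m] ∧ val v x ≤ val v z) :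
    ∃ g : (α →₀ ℕ) → (α →₀ ℕ) × (α →₀ ℕ),
      addConGen (fun a b => (a, b) ∈ g '' Cor (Std v w a0 m) a0) = AddCon.ker (val v) := by
  classical
  have h' : ∀ z : α →₀ ℕ, ∃ x, z a0 = 0 → x ∈ Std v w a0 m ∧ val v x ≡ val v z [MOD m] ∧
      val v x ≤ val v z := by
    intro z
    by_cases hz : z a0 = 0
    · obtain ⟨x, hx⟩ := h z hz
      exact ⟨x, fun _ => hx⟩
    · exact ⟨0, fun h => absurd h hz⟩
  choose y hy using h'
  refine ⟨rule v a0 m y, ?_⟩
  apply le_antisymm
  · rw [AddCon.addConGen_le]
    rintro a b ⟨u, hu, hab⟩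
    obtain ⟨h1, h2, h3⟩ := hy u hu.1
    have := rule_val hv y u h2 h3
    rw [hab] at this
    exact this
  · intro a b hab
    have hab' : val v a = val v b := hab
    obtain ⟨s, x, hx, hsx⟩ := nf (w := w) hv y hy _ a rfl
    obtain ⟨s', x', hx', hsx'⟩ := nf (w := w) hv y hy _ b rfl
    have hle : addConGen (fun a b => (a, b) ∈ rule v a0 m y '' Cor (Std v w a0 m) a0) ≤
        AddCon.ker (val v) := by
      rw [AddCon.addConGen_le]
      rintro a b ⟨u, hu, hab⟩
      obtain ⟨h1, h2, h3⟩ := hy u hu.1
      have := rule_val hv y u h2 h3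
      rw [hab] at this
      exact this
    have e1 : val v a = s * m + val v x := by
      have := hle hsx
      rw [AddCon.ker_rel, map_add, val_single, hv] at this
      exact this
    have e2 : val v b = s' * m + val v x' := by
      have := hle hsx'
      rw [AddCon.ker_rel, map_add, val_single, hv] at this
      exact this
    have hcong : val v x ≡ val v x' [MOD m] := by
      have h1 : s * m + val v x ≡ s' * m + val v x' [MOD m] := by
        rw [← e1, ← e2, hab']
      have h2 : s * m + val v x ≡ val v x [MOD m] := by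
        simp [Nat.ModEq]
      have h3 : s' * m + val v x' ≡ val v x' [MOD m] := by
        simp [Nat.ModEq]
      exact h2.symm.trans (h1.trans h3)
    have hxx : x = x' := by
      by_contra hne
      have h1 := hx.2 x' hx'.1 hcong.symm (Ne.symm hne)
      have h2 := hx'.2 x hx.1 hcong hne
      omega
    have hss : s = s' := by
      have : s * m = s' * m := by rw [hxx] at e1; omega
      exact Nat.eq_of_mul_eq_mul_right hm this
    rw [← hxx, ← hss] at hsx'
    exact (addConGen _).trans hsx ((addConGen _).symm hsx')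

end Upper

end Pool.Agent.H140.NS
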